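import Pool.Agent.Results.MP_7ab245_nt.CyclotomicResultants
import Pool.Agent.TH53.SL5

/-!
# MP_dc0c68_nt: large resultants with cyclotomic polynomials

Let `f` be a monic irreducible integer polynomial of degree `n`, `L` Lehmer's polynomial, `b` the
product of the distinct cyclotomic polynomials `Φ_m`, `m` in a finite nonempty set `D`, and
`t = deg b ≤ n`. If

`log |Res(f, b)| ≥ 80 √(n t) (1 + log n)` and `log |Res(f, b)| ≥ 280 t`,

then `M(f) > M(L)`. For `b = X - 1` the hypothesis says that `log |f(1)| ≥ 80 √n (1 + log n)` (and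
`≥ 280`); in general the sum of the `log |b(y)|` over the `n` zeros `y` of `f` may be as small as
`√n log n` times a constant, while it can be as large as about `n log 2` for each factor.

So the inequality of the problem holds, with the exact constant, for this class of polynomials.
-/

set_option autoImplicit false

open Polynomial

namespace Pool.Agent.Results.MP_dc0c68_nt.CyclotomicResultants

/-- The Mahler measure of an integer polynomial. -/
noncomputable def M (f : ℤ[X]) : ℝ := (f.map (Int.castRingHom ℂ)).mahlerMeasure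

/-- Lehmer's polynomial. -/
noncomputable def L : ℤ[X] := X ^ 10 + X ^ 9 - X ^ 7 - X ^ 6 - X ^ 5 - X ^ 4 - X ^ 3 + X + 1

/-- The absolute value of the resultant of the monic polynomial `f` and of `b`: the product of
`|b(y)|` over the complex zeros `y` of `f` (with multiplicity). -/
noncomputable def resAbs (f b : ℤ[X]) : ℝ :=
  ((f.map (Int.castRingHom ℂ)).roots.map fun y => ‖aeval y b‖).prod

/-- **The inequality `M(f) > M(L)` and resultants with products of cyclotomic polynomials.** -/
theorem result (f : ℤ[X]) (hf : Irreducible f) (hfm : f.Monic) (𝒟 : Finset ℕ) (hne : 𝒟.Nonempty)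
    (hpos : ∀ m ∈ 𝒟, 0 < m) (n t : ℕ) (hn : n = f.natDegree) (ht : t = ∑ m ∈ 𝒟, Nat.totient m)
    (htn : t ≤ n)
    (h1 : 80 * (Real.sqrt (n * t) * (1 + Real.log n)) ≤
        Real.log (resAbs f (∏ m ∈ 𝒟, cyclotomic m ℤ)))
    (h2 : 280 * t ≤ Real.log (resAbs f (∏ m ∈ 𝒟, cyclotomic m ℤ))) :
    M L < M f := by
  have h3 := (Pool.Agent.Results.MP_7ab245_nt.CyclotomicResultants.main f hf hfm 𝒟 hne hpos n t hn
    ht htn).1 h1
  change min (Real.log (resAbs f (∏ m ∈ 𝒟, cyclotomic m ℤ)))
        (Real.log (resAbs f (∏ m ∈ 𝒟, cyclotomic m ℤ)) ^ 2 / (n * (1 + Real.log n))) /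
          (1600 * t) ≤ Real.log (M f) at h3
  set Λ := Real.log (resAbs f (∏ m ∈ 𝒟, cyclotomic m ℤ)) with hΛ
  have ht1 : 1 ≤ t := by
    obtain ⟨m, hm⟩ := hne
    rw [ht]
    calc 1 ≤ Nat.totient m := Nat.totient_pos.2 (hpos m hm)
      _ ≤ _ := Finset.single_le_sum (f := fun m => Nat.totient m) (fun _ _ => Nat.zero_le _) hm
  have hn1 : 1 ≤ n := ht1.trans htn
  have htr : (1 : ℝ) ≤ t := by exact_mod_cast ht1
  have hnr : (1 : ℝ) ≤ n := by exact_mod_cast hn1
  have hlogn : 0 ≤ Real.log n := Real.log_nonneg hnr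
  have h4 : (280 : ℝ) * t ≤ Λ ^ 2 / (n * (1 + Real.log n)) := by
    rw [le_div_iff₀ (by positivity)]
    have h5 : (80 * (Real.sqrt (n * t) * (1 + Real.log n))) ^ 2 ≤ Λ ^ 2 :=
      pow_le_pow_left₀ (by positivity) h1 2
    have h6 : (80 * (Real.sqrt (n * t) * (1 + Real.log n))) ^ 2 =
        6400 * (n * t) * (1 + Real.log n) ^ 2 := by
      rw [mul_pow, mul_pow, Real.sq_sqrt (by positivity)]
      ring
    rw [h6] at h5
    refine le_trans ?_ h5
    have h7 : (0 : ℝ) ≤ n * t * (1 + Real.log n) := by positivity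
    have h8 : (n * t * (1 + Real.log n) : ℝ) ≤ n * t * (1 + Real.log n) ^ 2 := by
      have : (0 : ℝ) ≤ n * t := by positivity
      nlinarith [mul_nonneg this hlogn]
    nlinarith
  have h5 : (280 : ℝ) * t ≤ min Λ (Λ ^ 2 / (n * (1 + Real.log n))) := le_min h2 h4
  have h6 : (7 / 40 : ℝ) ≤ Real.log (M f) := by
    refine le_trans ?_ h3
    rw [le_div_iff₀ (by positivity)]
    linarith
  have h7 : (0 : ℝ) < M f := by
    by_contra h
    have h8 : M f ≤ 0 := not_lt.1 h
    have h9 : 0 ≤ M f := mahlerMeasure_nonneg _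
    have h10 : M f = 0 := le_antisymm h8 h9
    rw [h10, Real.log_zero] at h6
    norm_num at h6
  have h8 : M L < (2 : ℝ) ^ ((1 : ℝ) / 4) := Pool.Agent.TH53.SL.lehmer_lt'
  have h9 : (2 : ℝ) ^ ((1 : ℝ) / 4) ≤ M f := by
    rw [← Real.exp_log h7, Real.rpow_def_of_pos (by norm_num)]
    refine Real.exp_le_exp.2 ?_
    have := Real.log_two_lt_d9
    linarith
  linarith

end Pool.Agent.Results.MP_dc0c68_nt.CyclotomicResultants
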