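import Mathlib
import Pool.Agent.V1156.RC.Cyc
import Pool.Agent.V1156.RC.Opt3
import Pool.Agent.TH53.SL5

/-!
# The inequality `M(f) > M(L)` for nondegenerate polynomials with a large resultant with a product of
cyclotomic polynomials

Let `g` be a monic irreducible integer polynomial of degree `n`, with `M(g) > 1`, such that no
quotient of two distinct zeros of `g` is a root of unity. Let `b = ∏ m ∈ 𝒟, Φ_m` be a product of
distinct cyclotomic polynomials, containing with `Φ_m` all `Φ_e`, `e ∣ m`, of degree `t ≤ n`, for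
example `b = X ^ t - 1`. If `log |Res(g, b)| ≥ 82 √(n t) (1 + log n) ^ (3/4)` then `M(f) > M(L)` for
`g` and for every nonzero integer polynomial `f` divisible by `g`, where `L` is Lehmer's polynomial.
In particular this holds if `|g(1)| ≥ exp (82 √n (1 + log n) ^ (3/4))`.

Method: energy of the zeros of the polynomials with zeros `α ^ j`, `j ≤ k`, and of `w` charges on a
small circle around every zero of `b`, with `k = ⌈2 (1 + log n) ^ (1/2)⌉` and `w = ⌊√(n k / t)⌋`.
-/

set_option autoImplicit false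

open Polynomial

namespace Pool.Agent.Results.MP_dc0c68_nt.NondegenerateResultants

/-- The Mahler measure of an integer polynomial. -/
noncomputable def M (f : ℤ[X]) : ℝ := (f.map (Int.castRingHom ℂ)).mahlerMeasure

/-- Lehmer's polynomial. -/
noncomputable def L : ℤ[X] := X ^ 10 + X ^ 9 - X ^ 7 - X ^ 6 - X ^ 5 - X ^ 4 - X ^ 3 + X + 1

/-- The absolute value of the resultant of the monic polynomial `g` and of `b`: the product of
`|b(y)|` over the complex zeros `y` of `g` (with multiplicity). -/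
noncomputable def resAbs (g b : ℤ[X]) : ℝ :=
  ((g.map (Int.castRingHom ℂ)).roots.map fun y => ‖aeval y b‖).prod

/-- No quotient of two distinct zeros of `g` is a root of unity. -/
def Nondegenerate (g : ℤ[X]) : Prop :=
  ∀ z z' : ℂ, aeval z g = 0 → aeval z' g = 0 → z ≠ z' → ∀ j : ℕ, 1 ≤ j → z ^ j ≠ z' ^ j

lemma main (f : ℤ[X]) (hf : Irreducible f) (hfm : f.Monic) (𝒟 : Finset ℕ) (hne : 𝒟.Nonempty)
    (hpos : ∀ m ∈ 𝒟, 0 < m) (n t : ℕ) (hn : n = f.natDegree) (ht : t = ∑ m ∈ 𝒟, Nat.totient m)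
    (htn : t ≤ n) (hM : 1 < (f.map (Int.castRingHom ℂ)).mahlerMeasure) (hnd : Nondegenerate f)
    (hcl : ∀ m ∈ 𝒟, ∀ d, d ∣ m → d ∈ 𝒟)
    (h : 82 * (Real.sqrt (n * t) * (1 + Real.log n) ^ (3 / 4 : ℝ)) ≤
      Real.log (resAbs f (∏ m ∈ 𝒟, cyclotomic m ℤ))) :
    Real.log 2 / 4 ≤ Real.log (f.map (Int.castRingHom ℂ)).mahlerMeasure := by
  classical
  set b : ℤ[X] := ∏ m ∈ 𝒟, cyclotomic m ℤ with hb
  set S := Pool.Agent.V1156.RC.cycSet 𝒟 with hS
  have hcard : S.card = t := by rw [ht]; exact Pool.Agent.V1156.RC.cycSet_card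
  have ht1 : 1 ≤ t := by
    obtain ⟨m, hm⟩ := hne
    rw [ht]
    have h1 := Finset.single_le_sum (f := fun m => Nat.totient m) (fun _ _ => Nat.zero_le _) hm
    have h2 := Nat.totient_pos.mpr (hpos m hm)
    exact le_trans h2 h1
  have hSne : S.Nonempty := Finset.card_pos.mp (by omega)
  have hbS := Pool.Agent.V1156.RC.cycProd_map hpos
  have hroots : ∀ s ∈ S, ∃ N : ℕ, 0 < N ∧ s ^ N = 1 := by
    intro s hs
    obtain ⟨m, hm, h1⟩ := (Pool.Agent.V1156.RC.mem_cycSet hpos).mp hs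
    exact ⟨m, hpos m hm, h1.pow_eq_one⟩
  have hS1 : ∀ s ∈ S, ‖s‖ = 1 := by
    intro s hs
    obtain ⟨m, hm, h1⟩ := (Pool.Agent.V1156.RC.mem_cycSet hpos).mp hs
    exact h1.norm'_eq_one (hpos m hm).ne'
  have ht1' : (1:ℝ) ≤ t := by exact_mod_cast ht1
  have hn1 : (1:ℝ) ≤ n := by exact_mod_cast (ht1.trans htn)
  have htn' : (t:ℝ) ≤ n := by exact_mod_cast htn
  set η : ℝ := 1 / (16 * (t : ℝ) ^ 4) with hη
  have ht4 : (1:ℝ) ≤ (t : ℝ) ^ 4 := one_le_pow₀ ht1'
  have hη0 : 0 < η := by positivity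
  have hη1 : η ≤ 1 := by
    rw [hη, div_le_one (by positivity)]
    linarith
  have hsep : ∀ s ∈ S, ∀ s' ∈ S, s ≠ s' → η ≤ ‖s - s'‖ := by
    intro s hs s' hs' h
    have := Pool.Agent.V1156.RC.cycSet_sep hpos hs hs' h
    rw [← ht] at this
    exact this
  have hln : 0 ≤ Real.log n := Real.log_nonneg hn1
  have hηl : Real.log (1 / η) ≤ 10 * (1 + Real.log f.natDegree) := by
    rw [← hn, hη, one_div_one_div, Real.log_mul (by norm_num) (by positivity), Real.log_pow]
    have h1 : Real.log 16 ≤ 3 := by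
      have : (16:ℝ) = 2 ^ 4 := by norm_num
      rw [this, Real.log_pow]
      have := Real.log_two_lt_d9
      push_cast
      linarith
    have h2 : Real.log t ≤ Real.log n := Real.log_le_log (by linarith) htn'
    push_cast
    linarith
  have hpos' : 0 < Real.log (resAbs f b) := lt_of_lt_of_le (by positivity) h
  have hval : ∀ z : ℂ, aeval z f = 0 → aeval z b ≠ 0 := by
    intro z hz h0
    have h1 : resAbs f b = 0 := by
      unfold resAbs
      apply Multiset.prod_eq_zero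
      rw [Multiset.mem_map]
      refine ⟨z, ?_, by rw [h0, norm_zero]⟩
      rw [mem_roots ((hfm.map _).ne_zero), IsRoot.def, eval_map]
      exact hz
    rw [h1, Real.log_zero] at hpos'
    exact lt_irrefl _ hpos'
  have hmm : 0 < Real.log (f.map (Int.castRingHom ℂ)).mahlerMeasure := Real.log_pos hM
  refine Pool.Agent.V1156.RC.opt_c4 ht1 htn rfl h fun k w hk hw1 hw2 => ?_
  have h1 := Pool.Agent.V1156.RC.poly_cyc b S hSne hbS hS1 hη0 hη1 hsep f hf hfm hηl k w hk
    (Or.inr ⟨hmm, hnd, fun j hj1 _ => Pool.Agent.V1156.RC.cycProd_dvd hpos hcl j hj1⟩) hroots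
    hval hw1 (by rw [hcard, ← hn]; exact hw2)
  rw [hcard, ← hn] at h1
  exact h1

/-- **The inequality `M(f) > M(L)` and resultants with products of cyclotomic polynomials.** -/
theorem result (f g : ℤ[X]) (hf : f ≠ 0) (hgf : g ∣ f) (hg : Irreducible g) (hgm : g.Monic)
    (hM : 1 < M g) (hnd : Nondegenerate g) (𝒟 : Finset ℕ) (hne : 𝒟.Nonempty)
    (hpos : ∀ m ∈ 𝒟, 0 < m) (hcl : ∀ m ∈ 𝒟, ∀ e, e ∣ m → e ∈ 𝒟) (n t : ℕ) (hn : n = g.natDegree)
    (ht : t = ∑ m ∈ 𝒟, Nat.totient m) (htn : t ≤ n)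
    (h : 82 * (Real.sqrt (n * t) * (1 + Real.log n) ^ (3 / 4 : ℝ)) ≤
      Real.log (resAbs g (∏ m ∈ 𝒟, cyclotomic m ℤ))) :
    M L < M f := by
  have h1 := main g hg hgm 𝒟 hne hpos n t hn ht htn hM hnd hcl h
  have h8 : M L < (2 : ℝ) ^ ((1 : ℝ) / 4) := Pool.Agent.TH53.SL.lehmer_lt'
  have h9 : (2 : ℝ) ^ ((1 : ℝ) / 4) ≤ M g := by
    have h0 : 0 < M g := by linarith
    rw [← Real.exp_log h0, Real.rpow_def_of_pos (by norm_num)]
    refine Real.exp_le_exp.2 ?_
    change Real.log 2 / 4 ≤ Real.log (M g) at h1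
    linarith
  obtain ⟨u, rfl⟩ := hgf
  have hu : u ≠ 0 := right_ne_zero_of_mul hf
  have h10 : M (g * u) = M g * M u := by
    unfold M
    rw [Polynomial.map_mul, mahlerMeasure_mul]
  have h11 : 1 ≤ M u := Polynomial.one_le_mahlerMeasure_of_ne_zero hu
  rw [h10]
  nlinarith

end Pool.Agent.Results.MP_dc0c68_nt.NondegenerateResultants
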