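import Pool.Agent.Results.MP_7ab245_nt.SmallMeanSquares
import Pool.Agent.TH53.SL5

/-!
# MP_dc0c68_nt: combinations of zeros with small mean square

Let `f` be an irreducible integer polynomial of degree `n`, `L` Lehmer's polynomial, and `ε > 0`. Let
`S` be a set of `k` nonzero complex numbers, each `x ∈ S` a product of at most `D(x)` zeros of `f` and
inverses of zeros (`D(x) ≥ 1`), no quotient of two distinct elements of `S` being a root of unity,
and let `β = ∑ a_x x` with rational `a_x`, not all zero. There is a constant `C`, depending on `ε`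
only, such that `M(f) ≥ 2 > M(L)` if

* the mean of `|z|²` over the conjugates `z` of `β` is at most `(1 - ε) ∑ a_x²`, and
* `n ≥ C k (∑ D(x)) (log 2k)⁴`.

So the inequality of the problem holds, with the exact constant, for all polynomials of large degree
in this class; for instance whenever a sum of `k` zeros, no quotient of which is a root of unity,
has all its conjugates in the disc of radius `√((1 - ε) k)` and `n ≥ C k² (log 2k)⁴`.
-/

set_option autoImplicit false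

open Polynomial

namespace Pool.Agent.Results.MP_dc0c68_nt.SmallMeanSquares

/-- The Mahler measure of an integer polynomial. -/
noncomputable def M (f : ℤ[X]) : ℝ := (f.map (Int.castRingHom ℂ)).mahlerMeasure

/-- Lehmer's polynomial. -/
noncomputable def L : ℤ[X] := X ^ 10 + X ^ 9 - X ^ 7 - X ^ 6 - X ^ 5 - X ^ 4 - X ^ 3 + X + 1

/-- **The inequality `M(f) > M(L)` and combinations of zeros with small mean square.** -/
theorem result (ε : ℝ) (hε : 0 < ε) : ∃ C : ℝ, 0 < C ∧ ∀ f : ℤ[X], Irreducible f →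
    ∀ (S : Finset ℂ) (D : ℂ → ℕ),
    (∀ x ∈ S, x ≠ 0 ∧ 1 ≤ D x ∧ ∃ l : List ℂ, l.length ≤ D x ∧
      (∀ z ∈ l, aeval z f = 0 ∨ aeval z⁻¹ f = 0) ∧ x = l.prod) →
    (∀ x ∈ S, ∀ y ∈ S, x ≠ y → ∀ m : ℕ, 0 < m → x ^ m ≠ y ^ m) →
    ∀ a : ℂ → ℚ, (∃ x ∈ S, a x ≠ 0) → ∀ β : ℂ, β = ∑ x ∈ S, (a x : ℂ) * x →
    (((minpoly ℚ β).aroots ℂ).map (fun z => ‖z‖ ^ 2)).sum ≤
      (1 - ε) * ((minpoly ℚ β).natDegree * ∑ x ∈ S, ((a x : ℚ) : ℝ) ^ 2) →
    C * (S.card * (∑ x ∈ S, (D x : ℝ)) * (Real.log (2 * S.card)) ^ 4) ≤ f.natDegree →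
    M L < M f ∧ 2 ≤ M f := by
  obtain ⟨c, hc, H⟩ := Pool.Agent.Results.MP_7ab245_nt.SmallMeanSquares.result ε hε
  refine ⟨1 / c, by positivity, ?_⟩
  intro f hf S D hS hq a ha β hβ hcond hn
  have h1 := H f hf S D (fun x hx => ⟨(hS x hx).1, (hS x hx).2.2⟩) hq a ha β hβ hcond
  obtain ⟨x, hx, -⟩ := ha
  have hcard : (1 : ℝ) ≤ S.card := by
    have : 1 ≤ S.card := Finset.card_pos.2 ⟨x, hx⟩
    exact_mod_cast this
  have hsum : (1 : ℝ) ≤ ∑ x ∈ S, (D x : ℝ) := by
    calc (1 : ℝ) ≤ (D x : ℝ) := by exact_mod_cast (hS x hx).2.1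
      _ ≤ ∑ x ∈ S, (D x : ℝ) :=
        Finset.single_le_sum (f := fun x => (D x : ℝ)) (fun _ _ => Nat.cast_nonneg _) hx
  have hlog : 0 < Real.log (2 * S.card) := Real.log_pos (by linarith)
  set W : ℝ := S.card * (∑ x ∈ S, (D x : ℝ)) * (Real.log (2 * S.card)) ^ 4 with hW
  have hW0 : 0 < W := by positivity
  have h2 : 1 ≤ c * f.natDegree / W := by
    rw [le_div_iff₀ hW0, one_mul]
    rw [div_mul_eq_mul_div, one_mul, div_le_iff₀ hc] at hn
    linarith
  have h3 : (2 : ℝ) ≤ Real.exp (c * f.natDegree / W) := by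
    have := Real.add_one_le_exp (c * f.natDegree / W)
    linarith
  have h4 : 2 ≤ M f := by
    rw [min_eq_left h3] at h1
    exact h1
  refine ⟨?_, h4⟩
  have h5 : M L < (2 : ℝ) ^ ((1 : ℝ) / 4) := Pool.Agent.TH53.SL.lehmer_lt'
  have h6 : (2 : ℝ) ^ ((1 : ℝ) / 4) ≤ 2 := by
    calc (2 : ℝ) ^ ((1 : ℝ) / 4) ≤ 2 ^ (1 : ℝ) :=
          Real.rpow_le_rpow_of_exponent_le (by norm_num) (by norm_num)
      _ = 2 := Real.rpow_one 2
  linarith

end Pool.Agent.Results.MP_dc0c68_nt.SmallMeanSquares
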